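import Pool.Agent.helper48.AGR.Spec

/-!
# Row AUP: the automorphic growth is at most linear
-/

set_option autoImplicit false

namespace Pool.Agent.AGR

open Monoid Function

theorem AUP_ball {G : Type} [Group G] (π : G →* Multiplicative ℤ) (S : Finset G) (M : ℕ)
    (hM : ∀ s ∈ S, (Multiplicative.toAdd (π s)).natAbs ≤ M) (l : List G)
    (hl : ∀ x ∈ l, x ∈ (S : Set G) ∨ x⁻¹ ∈ (S : Set G)) :
    (Multiplicative.toAdd (π l.prod)).natAbs ≤ M * l.length := by
  induction l with
  | nil => simp
  | cons x l ih =>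
    have h1 := ih (fun y hy => hl y (List.mem_cons_of_mem _ hy))
    have h2 : (Multiplicative.toAdd (π x)).natAbs ≤ M := by
      rcases hl x List.mem_cons_self with h | h
      · exact hM x h
      · have := hM x⁻¹ h
        rw [map_inv, toAdd_inv, Int.natAbs_neg] at this
        exact this
    rw [List.prod_cons, map_mul, toAdd_mul, List.length_cons]
    calc (Multiplicative.toAdd (π x) + Multiplicative.toAdd (π l.prod)).natAbs
        ≤ (Multiplicative.toAdd (π x)).natAbs + (Multiplicative.toAdd (π l.prod)).natAbs :=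
          Int.natAbs_add_le _ _
      _ ≤ M + M * l.length := add_le_add h2 h1
      _ = M * (l.length + 1) := by ring

theorem AUP_orb {G : Type} [Group G] {g h : G} (hc : IsConj g h) :
    (Quotient.mk'' h : MulAction.orbitRel.Quotient (MulAut G) G) = Quotient.mk'' g := by
  obtain ⟨c, hc⟩ := isConj_iff.1 hc
  refine Quotient.sound' ?_
  change h ∈ MulAction.orbit (MulAut G) g
  exact ⟨MulAut.conj c, by simpa using hc⟩

theorem AUP : AUP_stmt := by
  classical
  intro G _ v π t z s e₀ a₀ hG S
  obtain ⟨M, hM⟩ : ∃ M : ℕ, ∀ s ∈ S, (Multiplicative.toAdd (π s)).natAbs ≤ M :=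
    ⟨S.sup fun s => (Multiplicative.toAdd (π s)).natAbs, fun s hs =>
      Finset.le_sup (f := fun s => (Multiplicative.toAdd (π s)).natAbs) hs⟩
  refine ⟨2 * M + 4, by omega, fun n => ?_⟩
  let T : Finset (MulAction.orbitRel.Quotient (MulAut G) G) :=
    ((Finset.Icc (-((M * n : ℕ) : ℤ)) ((M * n : ℕ) : ℤ)).image fun k : ℤ => Quotient.mk'' (t ^ k)) ∪
      {Quotient.mk'' 1, Quotient.mk'' (v a₀), Quotient.mk'' e₀}
  have hsub : {c : MulAction.orbitRel.Quotient (MulAut G) G | ∃ g ∈ Ball (S : Set G) n,
      Quotient.mk'' g = c} ⊆ (T : Set (MulAction.orbitRel.Quotient (MulAut G) G)) := by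
    rintro c ⟨g, ⟨l, hl1, hl2, rfl⟩, rfl⟩
    have hb := AUP_ball π S M hM l hl2
    have hb2 : (Multiplicative.toAdd (π l.prod)).natAbs ≤ M * n :=
      le_trans hb (Nat.mul_le_mul_left _ hl1)
    generalize l.prod = g at hb2
    simp only [T, Finset.coe_union, Finset.coe_image, Set.mem_union, Set.mem_image, Finset.coe_insert,
      Finset.coe_singleton, Set.mem_insert_iff, Set.mem_singleton_iff, Finset.mem_coe, Finset.mem_Icc]
    by_cases h1 : π g = 1
    · right
      by_cases h2 : ∀ a, g ≠ v a
      · right; right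
        exact AUP_orb (hG.cU g h1 h2)
      · push Not at h2
        obtain ⟨a, rfl⟩ := h2
        by_cases ha : a = 1
        · left
          rw [ha, map_one]
        · right; left
          obtain ⟨φ, hφ⟩ := hG.aut a₀ a hG.a0 ha
          refine Quotient.sound' ?_
          change v a ∈ MulAction.orbit (MulAut G) (v a₀)
          exact ⟨φ, hφ⟩
    · left
      refine ⟨Multiplicative.toAdd (π g), ⟨by omega, by omega⟩, ?_⟩
      symm
      apply AUP_orb
      have e : π (t ^ Multiplicative.toAdd (π g)) = π g := by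
        rw [map_zpow, hG.pit, ← ofAdd_zsmul, smul_eq_mul, mul_one, ofAdd_toAdd]
      exact hG.cT _ _ e (by rwa [e])
  have h3 : autGrowth (S : Set G) n ≤ T.card := by
    unfold autGrowth
    refine le_trans (Set.ncard_le_ncard hsub (Finset.finite_toSet T)) ?_
    rw [Set.ncard_coe_finset]
  have h4 : T.card ≤ (2 * (M * n) + 1) + 3 := by
    refine le_trans (Finset.card_union_le _ _) (add_le_add ?_ Finset.card_le_three)
    refine le_trans Finset.card_image_le ?_
    rw [Int.card_Icc]
    omega
  calc autGrowth (S : Set G) n ≤ (2 * (M * n) + 1) + 3 := le_trans h3 h4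
    _ ≤ (2 * M + 4) * n + (2 * M + 4) := by nlinarith

end Pool.Agent.AGR
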